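import Pool.Agent.Lib.MP_b347ba_lc_h80.Final

/-!
# Good rotation realizability is NP-hard

The reduction sends a CNF formula to a hub graph: the inner vertices are arranged in levels, and
two adjacent vertices `P` and `Q` are joined to all of them. In every good drawing realizing the
rotation system the paths `P - v - Q` are nested, every inner edge passes every level between its
ends exactly once, and two independent edges change their order along these levels at most once.
This rigid structure (proved from the definition of a good drawing, with an elementary theorem on
the two sides of a simple closed curve) encodes satisfiability. Conversely, a satisfying assignment
yields a sweep, and a sweep is turned into a piecewise linear good drawing. The Cook-Levin theorem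
and the polynomial running time of the reduction are proved for Mathlib's multi-stack machines.
-/

namespace Pool.Agent.Results.MP_b347ba_lc.NPHardness

open Pool.MP_b347ba_lc

/-- Good rotation realizability is NP-hard under polynomial-time many-one reductions. -/
theorem result : NPHard GRR := npHard_GRR

end Pool.Agent.Results.MP_b347ba_lc.NPHardness
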